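import Mathlib

set_option linter.unusedVariables false
set_option linter.unusedSectionVars false

namespace Pool.Agent.Helper585_EDC

open SimpleGraph Filter

/-- adjacency of `F0` as a boolean -/
def adjB (i j : Fin 10) : Bool :=
  ((i = 0 ∨ i = 2) ∧ (j = 1 ∨ j = 3 ∨ j = 4 ∨ j = 5 ∨ j = 6)) ∨
  ((j = 0 ∨ j = 2) ∧ (i = 1 ∨ i = 3 ∨ i = 4 ∨ i = 5 ∨ i = 6)) ∨
  ((i = 1 ∨ i = 3) ∧ (j = 0 ∨ j = 2 ∨ j = 7 ∨ j = 8 ∨ j = 9)) ∨
  ((j = 1 ∨ j = 3) ∧ (i = 0 ∨ i = 2 ∨ i = 7 ∨ i = 8 ∨ i = 9))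

/-- The graph: a four-cycle `0 1 2 3`, three more common neighbours `4, 5, 6` of `0, 2` and three more
common neighbours `7, 8, 9` of `1, 3`. -/
def F0 : SimpleGraph (Fin 10) where
  Adj i j := adjB i j = true
  symm := ⟨by decide⟩
  loopless := ⟨by decide⟩

instance : DecidableRel F0.Adj := fun i j => inferInstanceAs (Decidable (adjB i j = true))

/-- slopes -/
def kk : Fin 10 → ℤ := ![0, 1, 2, 3, 1, 1, 1, 2, 2, 2]

/-- shifts -/
def gg : Fin 10 → ℤ := ![0, 0, 0, 0, 1, 2, 3, 1, 2, 3]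

theorem kk_adj : ∀ i l : Fin 10, F0.Adj i l → kk l - kk i ≠ 0 ∧ |kk l - kk i| ≤ 3 := by decide

theorem kk_ne : ∀ i j : Fin 10, kk i ≠ kk j → kk j - kk i ≠ 0 ∧ |kk j - kk i| ≤ 3 := by decide

theorem kk_eq : ∀ i j l : Fin 10, F0.Adj i l → F0.Adj j l → kk i = kk j → i ≠ j →
    (kk l - kk i = 1 ∨ kk l - kk i = -1) ∧ gg j - gg i ≠ 0 ∧ |gg j - gg i| ≤ 3 := by decide

section

variable {p : ℕ} [Fact p.Prime] {N : ℕ}

theorem cast_ne_zero (h32 : 32 * N ≤ p) (hN : 0 < N) {m : ℤ} (hm : m ≠ 0) (hm' : |m| ≤ 31) :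
    (m : ZMod p) ≠ 0 := by
  intro h
  rw [ZMod.intCast_zmod_eq_zero_iff_dvd] at h
  exact hm (Int.eq_zero_of_abs_lt_dvd h (by omega))

theorem ivl (h32 : 32 * N ≤ p) (hN : 0 < N) {y m : ℤ} (hy : |y| < 4 * N) (hm : m ≠ 0)
    (hm' : |m| ≤ 3) : ((y + 4 * N * m : ℤ) : ZMod p) ≠ 0 := by
  intro h
  rw [ZMod.intCast_zmod_eq_zero_iff_dvd] at h
  have h1 : |4 * (N : ℤ) * m| = 4 * N * |m| := by
    rw [abs_mul, abs_of_nonneg (by positivity)]
  have h2 : 1 ≤ |m| := Int.one_le_abs hm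
  have h3 : 4 * (N : ℤ) * |m| ≤ 4 * N * 3 := by
    exact mul_le_mul_of_nonneg_left hm' (by positivity)
  have h4 : 4 * (N : ℤ) * 1 ≤ 4 * N * |m| := mul_le_mul_of_nonneg_left h2 (by positivity)
  have h5 : |y + 4 * N * m| < p := by
    have := abs_add_le y (4 * N * m)
    have : (32 * (N : ℤ)) ≤ p := by exact_mod_cast h32
    have : (0 : ℤ) < N := by exact_mod_cast hN
    omega
  have h6 := Int.eq_zero_of_abs_lt_dvd h h5
  have h7 : y = -(4 * N * m) := by linarith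
  rw [h7, abs_neg, h1] at hy
  omega

/-- the offsets of the planned copies -/
def dl (p N : ℕ) (i : Fin 10) (t : ZMod p) : ZMod p × ZMod p :=
  ((kk i : ZMod p) * t, (kk i : ZMod p) * t ^ 2 + 4 * N * (gg i : ZMod p) * t)

/-- the vertices -/
abbrev VV (p : ℕ) : Type := Fin 10 × (ZMod p × ZMod p)

/-- the relation containing all edges -/
def EE (p N : ℕ) (P Q : VV p) : Prop :=
  F0.Adj P.1 Q.1 ∧ ∃ m : ℕ, m < N ∧
    Q.2.1 - P.2.1 = ((kk Q.1 - kk P.1 : ℤ) : ZMod p) * m ∧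
    Q.2.2 - P.2.2 = ((kk Q.1 - kk P.1 : ℤ) : ZMod p) * m ^ 2 +
      4 * N * ((gg Q.1 - gg P.1 : ℤ) : ZMod p) * m

theorem EE.symm {P Q : VV p} (h : EE p N P Q) : EE p N Q P := by
  obtain ⟨h1, m, h2, h3, h4⟩ := h
  refine ⟨h1.symm, m, h2, ?_, ?_⟩
  · push_cast at h3 ⊢
    linear_combination -h3
  · push_cast at h4 ⊢
    linear_combination -h4

/-- three roots of a quadratic polynomial -/
theorem three_roots {K : Type*} [Field K] {A B C t1 t2 t3 : K} (hA : A ≠ 0)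
    (h1 : A * t1 ^ 2 + B * t1 + C = 0) (h2 : A * t2 ^ 2 + B * t2 + C = 0)
    (h3 : A * t3 ^ 2 + B * t3 + C = 0) : t1 = t2 ∨ t1 = t3 ∨ t2 = t3 := by
  by_contra hc
  push Not at hc
  obtain ⟨a, b, c⟩ := hc
  have e1 : A * (t1 + t2) + B = 0 := by
    have : (t1 - t2) * (A * (t1 + t2) + B) = 0 := by linear_combination h1 - h2
    exact (mul_eq_zero.1 this).resolve_left (sub_ne_zero.2 a)
  have e2 : A * (t1 + t3) + B = 0 := by
    have : (t1 - t3) * (A * (t1 + t3) + B) = 0 := by linear_combination h1 - h3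
    exact (mul_eq_zero.1 this).resolve_left (sub_ne_zero.2 b)
  have e3 : A * (t2 - t3) = 0 := by linear_combination e1 - e2
  exact c (sub_eq_zero.1 ((mul_eq_zero.1 e3).resolve_left hA))

/-- at most two common neighbours in a cell -/
theorem lemA (h32 : 32 * N ≤ p) (hN : 0 < N) {i j l : Fin 10} (hk : kk i ≠ kk j)
    {u v w1 w2 w3 : ZMod p × ZMod p}
    (a1 : EE p N (i, u) (l, w1)) (b1 : EE p N (j, v) (l, w1))
    (a2 : EE p N (i, u) (l, w2)) (b2 : EE p N (j, v) (l, w2))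
    (a3 : EE p N (i, u) (l, w3)) (b3 : EE p N (j, v) (l, w3)) : w1 = w2 ∨ w1 = w3 ∨ w2 = w3 := by
  obtain ⟨hil, t1, -, a11, a12⟩ := a1
  obtain ⟨-, t2, -, a21, a22⟩ := a2
  obtain ⟨-, t3, -, a31, a32⟩ := a3
  obtain ⟨hjl, s1, -, b11, b12⟩ := b1
  obtain ⟨-, s2, -, b21, b22⟩ := b2
  obtain ⟨-, s3, -, b31, b32⟩ := b3
  simp only at a11 a12 a21 a22 a31 a32 b11 b12 b21 b22 b31 b32 hil hjl
  obtain ⟨k1, k2⟩ := kk_adj i l hil
  obtain ⟨k3, k4⟩ := kk_ne i j hk
  have c1 : ((kk l - kk i : ℤ) : ZMod p) ≠ 0 := cast_ne_zero h32 hN k1 (by omega)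
  have c2 : ((kk j - kk i : ℤ) : ZMod p) ≠ 0 := cast_ne_zero h32 hN k3 (by omega)
  set κ : ZMod p := ((kk l - kk i : ℤ) : ZMod p) with hκ
  set κ' : ZMod p := ((kk l - kk j : ℤ) : ZMod p) with hκ'
  set h : ZMod p := 4 * N * ((gg l - gg i : ℤ) : ZMod p) with hh
  set h' : ZMod p := 4 * N * ((gg l - gg j : ℤ) : ZMod p) with hh'
  have c3 : κ' - κ = -((kk j - kk i : ℤ) : ZMod p) := by
    rw [hκ, hκ']; push_cast; ring
  have hA : κ * (κ' - κ) ≠ 0 := by
    rw [c3]; exact mul_ne_zero c1 (neg_ne_zero.2 c2)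
  set z1 := v.1 - u.1 with hz1
  set z2 := v.2 - u.2 with hz2
  have key : ∀ (w : ZMod p × ZMod p) (t s : ZMod p), w.1 - u.1 = κ * t →
      w.2 - u.2 = κ * t ^ 2 + h * t → w.1 - v.1 = κ' * s → w.2 - v.2 = κ' * s ^ 2 + h' * s →
      κ * (κ' - κ) * t ^ 2 + (κ' * h + 2 * κ * z1 - h' * κ) * t + (-z1 ^ 2 + h' * z1 - κ' * z2) = 0 := by
    intro w t s e1 e2 e3 e4
    have e5 : κ' * s = κ * t - z1 := by rw [← e1, ← e3, hz1]; ring
    have e6 : κ' * z2 = κ' * (κ * t ^ 2 + h * t) - (κ' * s) ^ 2 - h' * (κ' * s) := by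
      have : z2 = (κ * t ^ 2 + h * t) - (κ' * s ^ 2 + h' * s) := by rw [← e2, ← e4, hz2]; ring
      rw [this]; ring
    rw [e5] at e6
    linear_combination -e6
  have eqw : ∀ (w w' : ZMod p × ZMod p) (t : ZMod p), w.1 - u.1 = κ * t →
      w.2 - u.2 = κ * t ^ 2 + h * t → w'.1 - u.1 = κ * t → w'.2 - u.2 = κ * t ^ 2 + h * t →
      w = w' := by
    intro w w' t e1 e2 e3 e4
    apply Prod.ext
    · linear_combination e1 - e3
    · linear_combination e2 - e4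
  have q1 := key w1 t1 s1 a11 a12 b11 b12
  have q2 := key w2 t2 s2 a21 a22 b21 b22
  have q3 := key w3 t3 s3 a31 a32 b31 b32
  rcases three_roots hA q1 q2 q3 with e | e | e
  · left; rw [← e] at a21 a22; exact eqw _ _ _ a11 a12 a21 a22
  · right; left; rw [← e] at a31 a32; exact eqw _ _ _ a11 a12 a31 a32
  · right; right; rw [← e] at a31 a32; exact eqw _ _ _ a21 a22 a31 a32

/-- at most one common neighbour in a cell if the slopes agree -/
theorem lemB (h32 : 32 * N ≤ p) (hN : 0 < N) {i j l : Fin 10} (hk : kk i = kk j)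
    {u v w1 w2 : ZMod p × ZMod p} (hne : (i, u) ≠ (j, v))
    (a1 : EE p N (i, u) (l, w1)) (b1 : EE p N (j, v) (l, w1))
    (a2 : EE p N (i, u) (l, w2)) (b2 : EE p N (j, v) (l, w2)) : w1 = w2 := by
  obtain ⟨hil, t1, ht1, a11, a12⟩ := a1
  obtain ⟨-, t2, ht2, a21, a22⟩ := a2
  obtain ⟨hjl, s1, hs1, b11, b12⟩ := b1
  obtain ⟨-, s2, hs2, b21, b22⟩ := b2
  simp only at a11 a12 a21 a22 b11 b12 b21 b22 hil hjl
  obtain ⟨k1, k2⟩ := kk_adj i l hil
  have c1 : ((kk l - kk i : ℤ) : ZMod p) ≠ 0 := cast_ne_zero h32 hN k1 (by omega)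
  have c2 : (2 : ZMod p) ≠ 0 := by
    have := cast_ne_zero (p := p) h32 hN (m := 2) (by norm_num) (by norm_num)
    exact_mod_cast this
  rw [← hk] at b11 b12 b21 b22
  have e1 : ((kk l - kk i : ℤ) : ZMod p) * ((t1 : ZMod p) - s1 - (t2 - s2)) = 0 := by
    linear_combination (-a11) + b11 + a21 - b21
  have e2 : (t1 : ZMod p) - s1 - (t2 - s2) = 0 := (mul_eq_zero.1 e1).resolve_left c1
  have e3 : ((t1 : ZMod p) - t2) * (2 * ((kk l - kk i : ℤ) : ZMod p) * (t1 - s1) +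
      4 * N * ((gg j - gg i : ℤ) : ZMod p)) = 0 := by
    have e4 : (t2 : ZMod p) = t1 - s1 + s2 := by linear_combination -e2
    push_cast at a12 a22 b12 b22 ⊢
    rw [e4] at a22 ⊢
    linear_combination (-a12) + b12 + a22 - b22
  rcases mul_eq_zero.1 e3 with e4 | e4
  · have e5 : (t1 : ZMod p) = t2 := sub_eq_zero.1 e4
    rw [← e5] at a21 a22
    apply Prod.ext
    · linear_combination a11 - a21
    · linear_combination a12 - a22
  · exfalso
    by_cases hij : i = j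
    · subst hij
      rw [sub_self (gg i), Int.cast_zero, mul_zero, add_zero] at e4
      have e5 : (t1 : ZMod p) - s1 = 0 :=
        (mul_eq_zero.1 e4).resolve_left (mul_ne_zero c2 c1)
      have e6 : (t1 : ZMod p) = s1 := sub_eq_zero.1 e5
      rw [← e6] at b11 b12
      apply hne
      rw [Prod.mk.injEq]
      refine ⟨rfl, Prod.ext ?_ ?_⟩
      · linear_combination b11 - a11
      · linear_combination b12 - a12
    · obtain ⟨g1, g2, g3⟩ := kk_eq i j l hil hjl hk hij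
      rcases g1 with g1 | g1
      · rw [g1] at e4
        refine ivl h32 hN (y := 2 * ((t1 : ℤ) - s1)) (m := gg j - gg i) ?_ g2 g3 ?_
        · rw [abs_lt]; constructor <;> omega
        · push_cast at e4 ⊢
          linear_combination e4
      · rw [g1] at e4
        refine ivl h32 hN (y := 2 * ((s1 : ℤ) - t1)) (m := gg j - gg i) ?_ g2 g3 ?_
        · rw [abs_lt]; constructor <;> omega
        · push_cast at e4 ⊢
          linear_combination e4

/-- different directions -/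
theorem lemC (h32 : 32 * N ≤ p) (hN : 0 < N) {i a b : Fin 10} (hb : kk b - kk i = 1 ∨ kk b - kk i = -1)
    (ga : gg a = gg i) (gb : gg b - gg i = 1)
    {u v w w' : ZMod p × ZMod p} (hne : u ≠ v)
    (a1 : EE p N (i, u) (a, w)) (b1 : EE p N (i, v) (a, w))
    (a2 : EE p N (i, u) (b, w')) (b2 : EE p N (i, v) (b, w')) : False := by
  obtain ⟨hil, t1, ht1, a11, a12⟩ := a1
  obtain ⟨-, t2, ht2, a21, a22⟩ := a2
  obtain ⟨hjl, s1, hs1, b11, b12⟩ := b1
  obtain ⟨-, s2, hs2, b21, b22⟩ := b2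
  simp only at a11 a12 a21 a22 b11 b12 b21 b22 hil hjl
  obtain ⟨k1, k2⟩ := kk_adj i a hil
  have c1 : ((kk a - kk i : ℤ) : ZMod p) ≠ 0 := cast_ne_zero h32 hN k1 (by omega)
  rw [ga, sub_self, Int.cast_zero, mul_zero, zero_mul, add_zero] at a12 b12
  rw [gb, Int.cast_one, mul_one] at a22 b22
  set z1 := v.1 - u.1 with hz1
  set z2 := v.2 - u.2 with hz2
  have f1 : z1 = ((kk a - kk i : ℤ) : ZMod p) * (t1 - s1) := by rw [hz1]; linear_combination a11 - b11
  have f2 : z2 = z1 * (t1 + s1) := by rw [f1, hz2]; linear_combination a12 - b12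
  have hz : z1 ≠ 0 := by
    intro h0
    apply hne
    rw [h0, zero_mul] at f2
    apply Prod.ext
    · rw [hz1] at h0; linear_combination -h0
    · rw [hz2] at f2; linear_combination -f2
  have f3 : z1 = ((kk b - kk i : ℤ) : ZMod p) * (t2 - s2) := by rw [hz1]; linear_combination a21 - b21
  have f4 : ((kk b - kk i : ℤ) : ZMod p) * z2 =
      z1 * (((kk b - kk i : ℤ) : ZMod p) * (t2 + s2) + 4 * N) := by
    have : z2 = ((kk b - kk i : ℤ) : ZMod p) * (t2 ^ 2 - s2 ^ 2) + 4 * N * (t2 - s2) := by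
      rw [hz2]; linear_combination a22 - b22
    rw [this, f3]; ring
  rw [f2] at f4
  have f5 : ((kk b - kk i : ℤ) : ZMod p) * (t1 + s1) =
      ((kk b - kk i : ℤ) : ZMod p) * (t2 + s2) + 4 * N := by
    apply mul_left_cancel₀ hz
    linear_combination f4
  rcases hb with hb | hb
  · rw [hb] at f5
    refine ivl h32 hN (y := (t1 : ℤ) + s1 - t2 - s2) (m := -1) ?_ (by norm_num) (by norm_num) ?_
    · rw [abs_lt]; constructor <;> omega
    · push_cast at f5 ⊢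
      linear_combination f5
  · rw [hb] at f5
    refine ivl h32 hN (y := (t2 : ℤ) + s2 - t1 - s1) (m := -1) ?_ (by norm_num) (by norm_num) ?_
    · rw [abs_lt]; constructor <;> omega
    · push_cast at f5 ⊢
      linear_combination f5

end

end Pool.Agent.Helper585_EDC
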