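import Pool.Agent.Helper585_EDC.A

set_option linter.unusedVariables false
set_option linter.unusedSectionVars false

namespace Pool.Agent.Helper585_EDC

open SimpleGraph Filter

/-- the pairs of first coordinates that can have five common neighbours -/
def Opp (i j : Fin 10) : Prop := (i = 0 ∧ j = 2) ∨ (i = 2 ∧ j = 0) ∨ (i = 1 ∧ j = 3) ∨ (i = 3 ∧ j = 1)

instance : DecidableRel Opp := fun i j => by unfold Opp; infer_instance

theorem two_cells : ∀ i j : Fin 10, i ≠ j → ¬ Opp i j →
    (Finset.univ.filter (fun l => F0.Adj i l ∧ F0.Adj j l)).card ≤ 2 := by decide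

theorem opp_kk : ∀ i j : Fin 10, Opp i j → kk i ≠ kk j := by decide

theorem same_cells : ∀ i : Fin 10,
    (Finset.univ.filter (fun l => F0.Adj i l)).card ≤ 2 ∨
    ((Finset.univ.filter (fun l => F0.Adj i l)).card ≤ 5 ∧
     ∃ a b : Fin 10, F0.Adj i a ∧ F0.Adj i b ∧ (kk b - kk i = 1 ∨ kk b - kk i = -1) ∧ gg a = gg i ∧
       gg b - gg i = 1) := by decide

section

variable {p : ℕ} [Fact p.Prime] {N : ℕ}

/-- two vertices with five common neighbours -/
theorem heavy (h32 : 32 * N ≤ p) (hN : 0 < N) {P Q : VV p} (hPQ : P ≠ Q) (f : Fin 5 → VV p)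
    (hf : Function.Injective f) (hP : ∀ r, EE p N P (f r)) (hQ : ∀ r, EE p N Q (f r)) :
    Opp P.1 Q.1 := by
  obtain ⟨i, u⟩ := P
  obtain ⟨j, v⟩ := Q
  by_contra hO
  simp only at hO
  have hcell : ∀ r s, (f r).1 = (f s).1 → (f r).2 = (f s).2 → r = s := by
    intro r s h1 h2
    exact hf (Prod.ext h1 h2)
  have eP : ∀ r l, (f r).1 = l → EE p N (i, u) (l, (f r).2) := by
    intro r l h; rw [← h]; exact hP r
  have eQ : ∀ r l, (f r).1 = l → EE p N (j, v) (l, (f r).2) := by
    intro r l h; rw [← h]; exact hQ r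
  by_cases hk : kk i = kk j
  · have cinj : Function.Injective (fun r => (f r).1) := by
      intro r s hrs
      simp only at hrs
      exact hcell r s hrs (lemB h32 hN hk hPQ (eP r _ rfl) (eQ r _ rfl) (eP s _ hrs.symm)
        (eQ s _ hrs.symm))
    by_cases hij : i = j
    · subst hij
      have huv : u ≠ v := by
        rintro rfl
        exact hPQ rfl
      have h5 : Fintype.card (Fin 5) ≤ (Finset.univ.filter (fun l => F0.Adj i l)).card := by
        rw [← Finset.card_univ, ← Finset.card_image_of_injective _ cinj]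
        apply Finset.card_le_card
        intro l hl
        obtain ⟨r, -, rfl⟩ := Finset.mem_image.1 hl
        exact Finset.mem_filter.2 ⟨Finset.mem_univ _, (hP r).1⟩
      rw [Fintype.card_fin] at h5
      rcases same_cells i with h | ⟨h, a, b, ha, hb, h1, h2, h3⟩
      · omega
      · have himg : (Finset.univ.image (fun r => (f r).1)) =
            Finset.univ.filter (fun l => F0.Adj i l) := by
          apply Finset.eq_of_subset_of_card_le
          · intro l hl
            obtain ⟨r, -, rfl⟩ := Finset.mem_image.1 hl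
            exact Finset.mem_filter.2 ⟨Finset.mem_univ _, (hP r).1⟩
          · rw [Finset.card_image_of_injective _ cinj, Finset.card_univ, Fintype.card_fin]
            exact h
        have hra : a ∈ (Finset.univ.image (fun r => (f r).1)) := by
          rw [himg]; exact Finset.mem_filter.2 ⟨Finset.mem_univ _, ha⟩
        have hrb : b ∈ (Finset.univ.image (fun r => (f r).1)) := by
          rw [himg]; exact Finset.mem_filter.2 ⟨Finset.mem_univ _, hb⟩
        obtain ⟨ra, -, hra'⟩ := Finset.mem_image.1 hra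
        obtain ⟨rb, -, hrb'⟩ := Finset.mem_image.1 hrb
        exact lemC h32 hN h1 h2 h3 huv (eP ra a hra') (eQ ra a hra') (eP rb b hrb') (eQ rb b hrb')
    · have h2 := two_cells i j hij hO
      have h5 : Fintype.card (Fin 5) ≤
          (Finset.univ.filter (fun l => F0.Adj i l ∧ F0.Adj j l)).card := by
        rw [← Finset.card_univ, ← Finset.card_image_of_injective _ cinj]
        apply Finset.card_le_card
        intro l hl
        obtain ⟨r, -, rfl⟩ := Finset.mem_image.1 hl
        exact Finset.mem_filter.2 ⟨Finset.mem_univ _, (hP r).1, (hQ r).1⟩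
      rw [Fintype.card_fin] at h5
      omega
  · have hij : i ≠ j := by rintro rfl; exact hk rfl
    have h2 := two_cells i j hij hO
    have hmap : ∀ r ∈ (Finset.univ : Finset (Fin 5)), (f r).1 ∈
        Finset.univ.filter (fun l => F0.Adj i l ∧ F0.Adj j l) := by
      intro r _
      exact Finset.mem_filter.2 ⟨Finset.mem_univ _, (hP r).1, (hQ r).1⟩
    obtain ⟨l, -, hl⟩ := Finset.exists_lt_card_fiber_of_mul_lt_card_of_maps_to hmap (n := 2) (by
      rw [Finset.card_univ, Fintype.card_fin]; omega)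
    obtain ⟨a, b, c, ha, hb, hc, hab, hac, hbc⟩ := Finset.two_lt_card_iff.1 hl
    have ha' := (Finset.mem_filter.1 ha).2
    have hb' := (Finset.mem_filter.1 hb).2
    have hc' := (Finset.mem_filter.1 hc).2
    rcases lemA h32 hN hk (eP a l ha') (eQ a l ha') (eP b l hb') (eQ b l hb') (eP c l hc')
      (eQ c l hc') with h | h | h
    · exact hab (hcell _ _ (ha'.trans hb'.symm) h)
    · exact hac (hcell _ _ (ha'.trans hc'.symm) h)
    · exact hbc (hcell _ _ (hb'.trans hc'.symm) h)

/-- vertices of the planned copies -/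
def pos (N : ℕ) (x : ZMod p × ZMod p) (m : ℕ) (i : Fin 10) : VV p := (i, x + dl p N i (m : ZMod p))

/-- anisotropy -/
theorem aniso (h3 : p % 3 = 2) {a b : ZMod p} (h : a ^ 2 + a * b + b ^ 2 = 0) : a = 0 ∧ b = 0 := by
  have h2p := (Fact.out : p.Prime).two_le
  have hb : b = 0 := by
    by_contra hb
    set x := a / b with hx
    have hx1 : x ^ 2 + x + 1 = 0 := by
      rw [hx]; field_simp; linear_combination h
    have hx3 : x ^ 3 = 1 := by linear_combination (x - 1) * hx1
    have hxne : x ≠ 1 := by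
      intro h1
      rw [h1] at hx1
      have : ((3 : ℕ) : ZMod p) = 0 := by push_cast; linear_combination hx1
      rw [ZMod.natCast_eq_zero_iff] at this
      have := Nat.le_of_dvd (by norm_num) this
      interval_cases p
      · have h4 : (Fact.out : Nat.Prime 2) = Nat.prime_two := rfl
        omega
      · omega
    have h0 : x ≠ 0 := by
      intro h0
      rw [h0] at hx3
      simp at hx3
    have : Fact (Nat.Prime 3) := ⟨Nat.prime_three⟩
    have ho : orderOf x = 3 := orderOf_eq_prime hx3 hxne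
    have hd := ZMod.orderOf_dvd_card_sub_one h0
    rw [ho] at hd
    omega
  refine ⟨?_, hb⟩
  rw [hb] at h
  simpa using h

theorem link : ∀ i j l : Fin 10, Opp i j → F0.Adj i l → gg l ≠ 0 →
    (kk l - kk i = 1 ∨ kk l - kk i = -1) ∧ |gg l| ≤ 3 := by decide

theorem opp_gg : ∀ i j : Fin 10, Opp i j → gg i = 0 ∧ gg j = 0 := by decide

/-- the common neighbours of the opposite vertices -/
theorem R2 (h32 : 32 * N ≤ p) (hN : 0 < N) {i j : Fin 10} (hO : Opp i j) {x : ZMod p × ZMod p}
    {m : ℕ} (hm : m < N) {Q : VV p} (h1 : EE p N (pos N x m i) Q) (h2 : EE p N (pos N x m j) Q) :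
    Q = pos N x m Q.1 := by
  obtain ⟨l, w⟩ := Q
  obtain ⟨gi, gj⟩ := opp_gg i j hO
  obtain ⟨a1, s, hs, a2, a3⟩ := h1
  obtain ⟨b1, s', hs', b2, b3⟩ := h2
  simp only [pos, dl] at a1 a2 a3 b1 b2 b3 ⊢
  rw [gi] at a3
  rw [gj] at b3
  obtain ⟨k1, k2⟩ := kk_adj i l a1
  have c1 : ((kk l - kk i : ℤ) : ZMod p) ≠ 0 := cast_ne_zero h32 hN k1 (by omega)
  obtain ⟨k3, k4⟩ := kk_ne i j (opp_kk i j hO)
  have c2 : ((kk j - kk i : ℤ) : ZMod p) ≠ 0 := cast_ne_zero h32 hN k3 (by omega)
  -- it suffices that s = m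
  have hsm : (s : ZMod p) = m → (l, w) = (l, x + ((kk l : ZMod p) * (m : ZMod p),
      (kk l : ZMod p) * (m : ZMod p) ^ 2 + 4 * N * (gg l : ZMod p) * (m : ZMod p))) := by
    intro hsm
    rw [hsm] at a2 a3
    rw [Prod.mk.injEq]
    refine ⟨rfl, Prod.ext ?_ ?_⟩
    · simp only [Prod.fst_add] at a2 ⊢
      push_cast at a2
      linear_combination a2
    · simp only [Prod.snd_add] at a3 ⊢
      push_cast at a3
      linear_combination a3
  apply hsm
  simp only [Prod.fst_add, Prod.snd_add, gi, gj] at a2 a3 b2 b3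
  have e1 : ((kk l - kk i : ℤ) : ZMod p) * ((s : ZMod p) - m) =
      ((kk l - kk j : ℤ) : ZMod p) * ((s' : ZMod p) - m) := by
    push_cast at a2 b2 ⊢
    linear_combination b2 - a2
  have e2 : ((s : ZMod p) - s') * (((kk l - kk i : ℤ) : ZMod p) * ((s : ZMod p) - m) +
      4 * N * (gg l : ZMod p)) = 0 := by
    have e3 : ((kk l - kk i : ℤ) : ZMod p) * ((s : ZMod p) - m) * (s + m) +
        4 * N * (gg l : ZMod p) * (s - m) = ((kk l - kk j : ℤ) : ZMod p) * ((s' : ZMod p) - m) * (s' + m) +
        4 * N * (gg l : ZMod p) * (s' - m) := by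
      push_cast at a3 b3 ⊢
      linear_combination b3 - a3
    rw [← e1] at e3
    linear_combination e3
  rcases mul_eq_zero.1 e2 with e3 | e3
  · have e4 : (s : ZMod p) = s' := sub_eq_zero.1 e3
    rw [← e4] at e1
    have e5 : ((kk j - kk i : ℤ) : ZMod p) * ((s : ZMod p) - m) = 0 := by
      push_cast at e1 ⊢
      linear_combination e1
    exact sub_eq_zero.1 ((mul_eq_zero.1 e5).resolve_left c2)
  · by_cases hg : gg l = 0
    · rw [hg, Int.cast_zero, mul_zero, add_zero] at e3
      exact sub_eq_zero.1 ((mul_eq_zero.1 e3).resolve_left c1)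
    · exfalso
      obtain ⟨g1, g2⟩ := link i j l hO a1 hg
      rcases g1 with g1 | g1
      · rw [g1] at e3
        refine ivl h32 hN (y := (s : ℤ) - m) (m := gg l) ?_ hg g2 ?_
        · rw [abs_lt]; constructor <;> omega
        · push_cast at e3 ⊢
          linear_combination e3
      · rw [g1] at e3
        refine ivl h32 hN (y := (m : ℤ) - s) (m := gg l) ?_ hg g2 ?_
        · rw [abs_lt]; constructor <;> omega
        · push_cast at e3 ⊢
          linear_combination e3

/-- the four-cycle through the cells `0, 1, 2, 3` -/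
theorem R1 (h32 : 32 * N ≤ p) (hN : 0 < N) (h3 : p % 3 = 2) {u0 u1 u2 u3 : ZMod p × ZMod p} (h01 : EE p N (0, u0) (1, u1))
    (h12 : EE p N (1, u1) (2, u2)) (h23 : EE p N (2, u2) (3, u3)) (h03 : EE p N (0, u0) (3, u3)) :
    ∃ m : ℕ, m < N ∧ (0, u0) = pos N u0 m 0 ∧ (1, u1) = pos N u0 m 1 ∧ (2, u2) = pos N u0 m 2 ∧
      (3, u3) = pos N u0 m 3 := by
  obtain ⟨-, t1, ht1, a1, b1⟩ := h01
  obtain ⟨-, t2, ht2, a2, b2⟩ := h12
  obtain ⟨-, t3, ht3, a3, b3⟩ := h23
  obtain ⟨-, t4, ht4, a4, b4⟩ := h03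
  have k1 : kk 1 - kk 0 = 1 := by decide
  have k2 : kk 2 - kk 1 = 1 := by decide
  have k3 : kk 3 - kk 2 = 1 := by decide
  have k4 : kk 3 - kk 0 = 3 := by decide
  have g1 : gg 1 - gg 0 = 0 := by decide
  have g2 : gg 2 - gg 1 = 0 := by decide
  have g3 : gg 3 - gg 2 = 0 := by decide
  have g4 : gg 3 - gg 0 = 0 := by decide
  simp only [k1, k2, k3, k4, g1, g2, g3, g4, Int.cast_one, Int.cast_zero, mul_zero, zero_mul,
    add_zero, one_mul, Int.cast_ofNat] at a1 b1 a2 b2 a3 b3 a4 b4
  have e1 : (t1 : ZMod p) + t2 + t3 = 3 * t4 := by linear_combination a4 - a1 - a2 - a3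
  have e2 : (t1 : ZMod p) ^ 2 + t2 ^ 2 + t3 ^ 2 = 3 * t4 ^ 2 := by
    linear_combination b4 - b1 - b2 - b3
  have h2 : (2 : ZMod p) ≠ 0 := by
    have := cast_ne_zero (p := p) h32 hN (m := 2) (by norm_num) (by norm_num)
    exact_mod_cast this
  have e3 : ((t1 : ZMod p) - t4) ^ 2 + ((t1 : ZMod p) - t4) * ((t2 : ZMod p) - t4) +
      ((t2 : ZMod p) - t4) ^ 2 = 0 := by
    apply mul_left_cancel₀ h2
    have e4 : (t3 : ZMod p) = 3 * t4 - t1 - t2 := by linear_combination e1
    rw [e4] at e2
    linear_combination e2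
  obtain ⟨f1, f2⟩ := aniso h3 e3
  have f3 : (t2 : ZMod p) = t1 := by linear_combination f2 - f1
  have f4 : (t4 : ZMod p) = t1 := by linear_combination -f1
  rw [f3] at a2 b2
  rw [f4] at a4 b4
  have q0 : kk 0 = 0 := by decide
  have q1 : kk 1 = 1 := by decide
  have q2 : kk 2 = 2 := by decide
  have q3 : kk 3 = 3 := by decide
  have r0 : gg 0 = 0 := by decide
  have r1 : gg 1 = 0 := by decide
  have r2 : gg 2 = 0 := by decide
  have r3 : gg 3 = 0 := by decide
  refine ⟨t1, ht1, ?_, ?_, ?_, ?_⟩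
  · simp [pos, dl, q0, r0]
  · simp only [pos, dl, q1, r1, Prod.mk.injEq, true_and]
    apply Prod.ext
    · simp only [Prod.fst_add]; push_cast; linear_combination a1
    · simp only [Prod.snd_add]; push_cast; linear_combination b1
  · simp only [pos, dl, q2, r2, Prod.mk.injEq, true_and]
    apply Prod.ext
    · simp only [Prod.fst_add]; push_cast; linear_combination a1 + a2
    · simp only [Prod.snd_add]; push_cast; linear_combination b1 + b2
  · simp only [pos, dl, q3, r3, Prod.mk.injEq, true_and]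
    apply Prod.ext
    · simp only [Prod.fst_add]; push_cast; linear_combination a4
    · simp only [Prod.snd_add]; push_cast; linear_combination b4

end

end Pool.Agent.Helper585_EDC
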