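import Pool.Agent.Helper585_EDC.B

set_option linter.unusedVariables false
set_option linter.unusedSectionVars false

namespace Pool.Agent.Helper585_EDC

open SimpleGraph Filter

section

variable {p : ℕ} [Fact p.Prime] {N : ℕ}

/-- four vertices in the cells `0, 1, 2, 3` -/
theorem core (h32 : 32 * N ≤ p) (hN : 0 < N) (h3 : p % 3 = 2) {P0 P1 P2 P3 : VV p}
    (c0 : P0.1 = 0) (c1 : P1.1 = 1) (c2 : P2.1 = 2) (c3 : P3.1 = 3)
    (h01 : EE p N P0 P1) (h12 : EE p N P1 P2) (h23 : EE p N P2 P3) (h03 : EE p N P0 P3) :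
    ∃ x m, m < N ∧ (∀ Q, EE p N P0 Q → EE p N P2 Q → Q = pos N x m Q.1) ∧
      (∀ Q, EE p N P1 Q → EE p N P3 Q → Q = pos N x m Q.1) := by
  obtain ⟨i0, u0⟩ := P0
  obtain ⟨i1, u1⟩ := P1
  obtain ⟨i2, u2⟩ := P2
  obtain ⟨i3, u3⟩ := P3
  simp only at c0 c1 c2 c3
  subst c0 c1 c2 c3
  obtain ⟨m, hm, q0, q1, q2, q3⟩ := R1 h32 hN h3 h01 h12 h23 h03
  refine ⟨u0, m, hm, ?_, ?_⟩
  · intro Q hQ0 hQ2
    rw [q0] at hQ0
    rw [q2] at hQ2
    exact R2 h32 hN (i := 0) (j := 2) (by decide) hm hQ0 hQ2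
  · intro Q hQ1 hQ3
    rw [q1] at hQ1
    rw [q3] at hQ3
    exact R2 h32 hN (i := 1) (j := 3) (by decide) hm hQ1 hQ3

/-- two opposite pairs that are joined completely -/
theorem core' (h32 : 32 * N ≤ p) (hN : 0 < N) (h3 : p % 3 = 2) {X X' Y Y' : VV p}
    (hX : Opp X.1 X'.1) (hY : Opp Y.1 Y'.1)
    (h1 : EE p N X Y) (h2 : EE p N X Y') (h3' : EE p N X' Y) (h4 : EE p N X' Y') :
    ∃ x m, m < N ∧ (∀ Q, EE p N X Q → EE p N X' Q → Q = pos N x m Q.1) ∧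
      (∀ Q, EE p N Y Q → EE p N Y' Q → Q = pos N x m Q.1) := by
  have had : F0.Adj X.1 Y.1 := h1.1
  rcases hX with ⟨e1, e2⟩ | ⟨e1, e2⟩ | ⟨e1, e2⟩ | ⟨e1, e2⟩ <;>
  rcases hY with ⟨f1, f2⟩ | ⟨f1, f2⟩ | ⟨f1, f2⟩ | ⟨f1, f2⟩
  · exfalso; rw [e1, f1] at had; revert had; decide
  · exfalso; rw [e1, f1] at had; revert had; decide
  · exact core h32 hN h3 e1 f1 e2 f2 h1 h3'.symm h4 h2
  · obtain ⟨x, m, hm, A, B⟩ := core h32 hN h3 e1 f2 e2 f1 h2 h4.symm h3' h1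
    exact ⟨x, m, hm, A, fun Q a b => B Q b a⟩
  · exfalso; rw [e1, f1] at had; revert had; decide
  · exfalso; rw [e1, f1] at had; revert had; decide
  · obtain ⟨x, m, hm, A, B⟩ := core h32 hN h3 e2 f1 e1 f2 h3' h1.symm h2 h4
    exact ⟨x, m, hm, fun Q a b => A Q b a, B⟩
  · obtain ⟨x, m, hm, A, B⟩ := core h32 hN h3 e2 f2 e1 f1 h4 h2.symm h1 h3'
    exact ⟨x, m, hm, fun Q a b => A Q b a, fun Q a b => B Q b a⟩
  · obtain ⟨x, m, hm, A, B⟩ := core h32 hN h3 f1 e1 f2 e2 h1.symm h2 h4.symm h3'.symm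
    exact ⟨x, m, hm, B, A⟩
  · obtain ⟨x, m, hm, A, B⟩ := core h32 hN h3 f2 e1 f1 e2 h2.symm h1 h3'.symm h4.symm
    exact ⟨x, m, hm, B, fun Q a b => A Q b a⟩
  · exfalso; rw [e1, f1] at had; revert had; decide
  · exfalso; rw [e1, f1] at had; revert had; decide
  · obtain ⟨x, m, hm, A, B⟩ := core h32 hN h3 f1 e2 f2 e1 h3'.symm h4 h2.symm h1.symm
    exact ⟨x, m, hm, fun Q a b => B Q b a, A⟩
  · obtain ⟨x, m, hm, A, B⟩ := core h32 hN h3 f2 e2 f1 e1 h4.symm h3' h1.symm h2.symm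
    exact ⟨x, m, hm, fun Q a b => B Q b a, fun Q a b => A Q b a⟩
  · exfalso; rw [e1, f1] at had; revert had; decide
  · exfalso; rw [e1, f1] at had; revert had; decide

/-- The union of the planned copies with parameters in `I`. -/
def HG (p N : ℕ) (I : Finset ((ZMod p × ZMod p) × ℕ)) : SimpleGraph (VV p) where
  Adj P Q := F0.Adj P.1 Q.1 ∧ ∃ a ∈ I, P = (P.1, a.1 + dl p N P.1 (a.2 : ZMod p)) ∧
    Q = (Q.1, a.1 + dl p N Q.1 (a.2 : ZMod p))
  symm := ⟨by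
    rintro P Q ⟨h, a, ha, h1, h2⟩
    exact ⟨h.symm, a, ha, h2, h1⟩⟩
  loopless := ⟨by
    rintro P ⟨h, -⟩
    exact h.ne rfl⟩

theorem HG_EE {I : Finset ((ZMod p × ZMod p) × ℕ)} (hI : ∀ a ∈ I, a.2 < N) {P Q : VV p}
    (h : (HG p N I).Adj P Q) : EE p N P Q := by
  obtain ⟨h, ⟨x, m⟩, ha, h1, h2⟩ := h
  refine ⟨h, m, hI _ ha, ?_, ?_⟩
  · have e1 : P.2.1 = x.1 + (kk P.1 : ZMod p) * (m : ZMod p) := congrArg (fun z => z.2.1) h1
    have e2 : Q.2.1 = x.1 + (kk Q.1 : ZMod p) * (m : ZMod p) := congrArg (fun z => z.2.1) h2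
    rw [e1, e2]; push_cast; ring
  · have e1 : P.2.2 = x.2 + ((kk P.1 : ZMod p) * (m : ZMod p) ^ 2 + 4 * N * (gg P.1 : ZMod p) * m) :=
      congrArg (fun z => z.2.2) h1
    have e2 : Q.2.2 = x.2 + ((kk Q.1 : ZMod p) * (m : ZMod p) ^ 2 + 4 * N * (gg Q.1 : ZMod p) * m) :=
      congrArg (fun z => z.2.2) h2
    rw [e1, e2]; push_cast; ring

/-- the planned copy -/
def plan (N : ℕ) {I : Finset ((ZMod p × ZMod p) × ℕ)} {a : (ZMod p × ZMod p) × ℕ} (ha : a ∈ I) :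
    Copy F0 (HG p N I) :=
  ⟨⟨fun i => pos N a.1 a.2 i, fun {i j} h => ⟨h, a, ha, rfl, rfl⟩⟩, fun i j h => congrArg Prod.fst h⟩

theorem plan_apply {I : Finset ((ZMod p × ZMod p) × ℕ)} {a : (ZMod p × ZMod p) × ℕ} (ha : a ∈ I)
    (i : Fin 10) : plan N ha i = pos N a.1 a.2 i := rfl

theorem pos_inj (h32 : 32 * N ≤ p) (hN : 0 < N) {x y : ZMod p × ZMod p} {m m' : ℕ} {i j : Fin 10}
    (hm : m < N) (hm' : m' < N) (hij : F0.Adj i j) (h1 : pos N x m i = pos N y m' i)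
    (h2 : pos N x m j = pos N y m' j) : x = y ∧ m = m' := by
  have e1 : x + dl p N i (m : ZMod p) = y + dl p N i (m' : ZMod p) := congrArg Prod.snd h1
  have e2 : x + dl p N j (m : ZMod p) = y + dl p N j (m' : ZMod p) := congrArg Prod.snd h2
  have f1 : x.1 + (kk i : ZMod p) * (m : ZMod p) = y.1 + (kk i : ZMod p) * (m' : ZMod p) :=
    congrArg Prod.fst e1
  have f2 : x.1 + (kk j : ZMod p) * (m : ZMod p) = y.1 + (kk j : ZMod p) * (m' : ZMod p) :=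
    congrArg Prod.fst e2
  obtain ⟨k1, k2⟩ := kk_adj i j hij
  have c1 : ((kk j - kk i : ℤ) : ZMod p) ≠ 0 := cast_ne_zero h32 hN k1 (by omega)
  have f3 : ((kk j - kk i : ℤ) : ZMod p) * ((m : ZMod p) - m') = 0 := by
    push_cast
    linear_combination f2 - f1
  have f4 : (m : ZMod p) = m' := sub_eq_zero.1 ((mul_eq_zero.1 f3).resolve_left c1)
  have f5 : m = m' := by
    have := (ZMod.natCast_eq_natCast_iff' m m' p).1 f4
    rwa [Nat.mod_eq_of_lt (by omega), Nat.mod_eq_of_lt (by omega)] at this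
  subst f5
  exact ⟨add_right_cancel e1, rfl⟩

/-- every copy is a planned copy, pointwise -/
theorem copy_pos (h32 : 32 * N ≤ p) (hN : 0 < N) (h3 : p % 3 = 2)
    {I : Finset ((ZMod p × ZMod p) × ℕ)} (hI : ∀ a ∈ I, a.2 < N) (φ : Copy F0 (HG p N I)) :
    ∃ a ∈ I, ∀ r, φ r = pos N a.1 a.2 (φ r).1 := by
  have hE : ∀ i j, F0.Adj i j → EE p N (φ i) (φ j) := fun i j h => HG_EE hI (φ.toHom.map_adj h)
  have hinj := φ.injective
  have hX : Opp (φ 0).1 (φ 2).1 := by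
    refine heavy h32 hN (hinj.ne (by decide)) (fun r => φ (![1, 3, 4, 5, 6] r)) ?_ ?_ ?_
    · exact hinj.comp (by decide)
    · intro r
      exact hE _ _ (by revert r; decide)
    · intro r
      exact hE _ _ (by revert r; decide)
  have hY : Opp (φ 1).1 (φ 3).1 := by
    refine heavy h32 hN (hinj.ne (by decide)) (fun r => φ (![0, 2, 7, 8, 9] r)) ?_ ?_ ?_
    · exact hinj.comp (by decide)
    · intro r
      exact hE _ _ (by revert r; decide)
    · intro r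
      exact hE _ _ (by revert r; decide)
  obtain ⟨x, m, hm, A, B⟩ := core' h32 hN h3 hX hY (hE 0 1 (by decide)) (hE 0 3 (by decide))
    (hE 2 1 (by decide)) (hE 2 3 (by decide))
  have key : ∀ r, φ r = pos N x m (φ r).1 := by
    intro r
    have : (F0.Adj 0 r ∧ F0.Adj 2 r) ∨ (F0.Adj 1 r ∧ F0.Adj 3 r) := by revert r; decide
    rcases this with ⟨h1, h2⟩ | ⟨h1, h2⟩
    · exact A _ (hE _ _ h1) (hE _ _ h2)
    · exact B _ (hE _ _ h1) (hE _ _ h2)
  have h01 : (HG p N I).Adj (φ 0) (φ 1) := φ.toHom.map_adj (by decide)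
  obtain ⟨g1, a, ha, g2, g3⟩ := h01
  have := pos_inj h32 hN (x := x) (y := a.1) (m := m) (m' := a.2) hm (hI a ha) g1
    ((key 0).symm.trans g2) ((key 1).symm.trans g3)
  refine ⟨a, ha, ?_⟩
  rw [← this.1, ← this.2]
  exact key

/-- an injective homomorphism from a finite graph to itself is onto on edges -/
theorem self_map (σ : F0 →g F0) (hσ : Function.Injective σ) (i j : Fin 10) (h : F0.Adj i j) :
    ∃ i' j', F0.Adj i' j' ∧ σ i' = i ∧ σ j' = j := by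
  have hinj : Function.Injective (fun d : {d : Fin 10 × Fin 10 // F0.Adj d.1 d.2} =>
      (⟨(σ d.1.1, σ d.1.2), σ.map_adj d.2⟩ : {d : Fin 10 × Fin 10 // F0.Adj d.1 d.2})) := by
    rintro ⟨⟨a, b⟩, hab⟩ ⟨⟨c, d⟩, hcd⟩ hh
    simp only [Subtype.mk.injEq, Prod.mk.injEq] at hh ⊢
    exact ⟨hσ hh.1, hσ hh.2⟩
  have hsurj := Finite.injective_iff_surjective.1 hinj
  obtain ⟨⟨⟨a, b⟩, hab⟩, hd⟩ := hsurj ⟨(i, j), h⟩
  simp only [Subtype.mk.injEq, Prod.mk.injEq] at hd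
  exact ⟨a, b, hab, hd.1, hd.2⟩

/-- the copy as a subgraph is the planned one -/
theorem copy_sub (h32 : 32 * N ≤ p) (hN : 0 < N) (h3 : p % 3 = 2)
    {I : Finset ((ZMod p × ZMod p) × ℕ)} (hI : ∀ a ∈ I, a.2 < N) (φ : Copy F0 (HG p N I)) :
    ∃ a, ∃ ha : a ∈ I, φ.toSubgraph = (plan N ha).toSubgraph := by
  obtain ⟨a, ha, key⟩ := copy_pos h32 hN h3 hI φ
  refine ⟨a, ha, ?_⟩
  have hσ : Function.Injective (fun r => (φ r).1) := by
    intro r s hrs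
    simp only at hrs
    have e : φ r = φ s := by rw [key r, key s, hrs]
    exact φ.injective e
  let σ : F0 →g F0 := ⟨fun r => (φ r).1, fun {i j} h => (φ.toHom.map_adj h).1⟩
  have hσ' : Function.Bijective (fun r => (φ r).1) := Finite.injective_iff_bijective.1 hσ
  have hadj : ∀ P Q, φ.toSubgraph.Adj P Q ↔ ∃ i j, F0.Adj i j ∧ φ i = P ∧ φ j = Q := by
    intro P Q
    simp [Copy.toSubgraph, Subgraph.map_adj, Relation.Map]
  have hadj' : ∀ P Q, (plan N ha).toSubgraph.Adj P Q ↔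
      ∃ i j, F0.Adj i j ∧ plan N ha i = P ∧ plan N ha j = Q := by
    intro P Q
    simp [Copy.toSubgraph, Subgraph.map_adj, Relation.Map]
  apply Subgraph.ext
  · ext P
    simp only [Copy.toSubgraph, Subgraph.map_verts, Subgraph.verts_top, Set.image_univ,
      Set.mem_range]
    constructor
    · rintro ⟨r, rfl⟩
      exact ⟨(φ r).1, (key r).symm⟩
    · rintro ⟨i, rfl⟩
      obtain ⟨r, hr⟩ := hσ'.2 i
      refine ⟨r, ?_⟩
      simp only at hr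
      have := key r
      rw [hr] at this
      exact this
  · ext P Q
    rw [hadj, hadj']
    constructor
    · rintro ⟨i, j, h, rfl, rfl⟩
      exact ⟨(φ i).1, (φ j).1, (φ.toHom.map_adj h).1, (key i).symm, (key j).symm⟩
    · rintro ⟨i, j, h, rfl, rfl⟩
      obtain ⟨i', j', h', rfl, rfl⟩ := self_map σ hσ i j h
      exact ⟨i', j', h', key i', key j'⟩

end

end Pool.Agent.Helper585_EDC
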