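import Pool.Agent.Helper585_EDC.C

set_option linter.unusedVariables false
set_option linter.unusedSectionVars false

namespace Pool.Agent.Helper585_EDC

open SimpleGraph Finset

section upper

variable {V : Type*} [Fintype V] [DecidableEq V] (G : SimpleGraph V) [DecidableRel G.Adj]

/-- the common neighbours -/
def cn (P : V × V) : Finset V := univ.filter (fun w => G.Adj P.1 w ∧ G.Adj P.2 w)

theorem embed (hG : F0.Free G) {u v y z : V} (huv : u ≠ v) (hyz : y ≠ z) (uy : G.Adj u y)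
    (uz : G.Adj u z) (vy : G.Adj v y) (vz : G.Adj v z) (h1 : 8 ≤ (cn G (u, v)).card)
    (h2 : 8 ≤ (cn G (y, z)).card) : False := by
  have hA : 2 < ((cn G (u, v)) \ {y, z}).card := by
    have := le_card_sdiff {y, z} (cn G (u, v))
    have h3 : ({y, z} : Finset V).card ≤ 2 := card_le_two
    omega
  obtain ⟨a1, a2, a3, ha1, ha2, ha3, a12, a13, a23⟩ := two_lt_card_iff.1 hA
  have hB : 2 < ((cn G (y, z)) \ {u, v, a1, a2, a3}).card := by
    have := le_card_sdiff {u, v, a1, a2, a3} (cn G (y, z))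
    have h3 : ({u, v, a1, a2, a3} : Finset V).card ≤ 5 := card_le_five
    omega
  obtain ⟨b1, b2, b3, hb1, hb2, hb3, b12, b13, b23⟩ := two_lt_card_iff.1 hB
  simp only [cn, mem_sdiff, mem_filter, mem_univ, true_and, mem_insert, mem_singleton, not_or]
    at ha1 ha2 ha3 hb1 hb2 hb3
  obtain ⟨⟨a1u, a1v⟩, a1y, a1z⟩ := ha1
  obtain ⟨⟨a2u, a2v⟩, a2y, a2z⟩ := ha2
  obtain ⟨⟨a3u, a3v⟩, a3y, a3z⟩ := ha3
  obtain ⟨⟨b1y, b1z⟩, b1u, b1v, b1a, b1b, b1c⟩ := hb1
  obtain ⟨⟨b2y, b2z⟩, b2u, b2v, b2a, b2b, b2c⟩ := hb2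
  obtain ⟨⟨b3y, b3z⟩, b3u, b3v, b3a, b3b, b3c⟩ := hb3
  apply hG
  let f : Fin 10 → V := ![u, y, v, z, a1, a2, a3, b1, b2, b3]
  have hinj : Function.Injective f := by
    rw [← List.nodup_ofFn]
    have n1 := uy.ne
    have n2 := uz.ne
    have n3 := vy.ne
    have n4 := vz.ne
    have n5 := a1u.ne
    have n6 := a2u.ne
    have n7 := a3u.ne
    have n8 := a1v.ne
    have n9 := a2v.ne
    have n10 := a3v.ne
    have n11 := b1y.ne
    have n12 := b2y.ne
    have n13 := b3y.ne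
    have n14 := b1z.ne
    have n15 := b2z.ne
    have n16 := b3z.ne
    simp [f, List.ofFn_succ]
    refine ⟨⟨n1, huv, n2, n5, n6, n7, Ne.symm b1u, Ne.symm b2u, Ne.symm b3u⟩, 
      ⟨Ne.symm n3, hyz, Ne.symm a1y, Ne.symm a2y, Ne.symm a3y, n11, n12, n13⟩,
      ⟨n4, n8, n9, n10, Ne.symm b1v, Ne.symm b2v, Ne.symm b3v⟩,
      ⟨Ne.symm a1z, Ne.symm a2z, Ne.symm a3z, n14, n15, n16⟩,
      ⟨a12, a13, Ne.symm b1a, Ne.symm b2a, Ne.symm b3a⟩,
      ⟨a23, Ne.symm b1b, Ne.symm b2b, Ne.symm b3b⟩,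
      ⟨Ne.symm b1c, Ne.symm b2c, Ne.symm b3c⟩, ⟨b12, b13⟩, b23⟩
  have hhom : ∀ i j, F0.Adj i j → G.Adj (f i) (f j) := by
    have key : ∀ i j, i < j → F0.Adj i j → G.Adj (f i) (f j) := by
      have : ∀ i j, i < j → F0.Adj i j → (i = 0 ∧ j = 1) ∨ (i = 0 ∧ j = 3) ∨ (i = 0 ∧ j = 4) ∨
        (i = 0 ∧ j = 5) ∨ (i = 0 ∧ j = 6) ∨ (i = 1 ∧ j = 2) ∨ (i = 1 ∧ j = 7) ∨ (i = 1 ∧ j = 8) ∨
        (i = 1 ∧ j = 9) ∨ (i = 2 ∧ j = 3) ∨ (i = 2 ∧ j = 4) ∨ (i = 2 ∧ j = 5) ∨ (i = 2 ∧ j = 6) ∨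
        (i = 3 ∧ j = 7) ∨ (i = 3 ∧ j = 8) ∨ (i = 3 ∧ j = 9) := by decide
      intro i j hij h
      rcases this i j hij h with ⟨rfl, rfl⟩ | ⟨rfl, rfl⟩ | ⟨rfl, rfl⟩ | ⟨rfl, rfl⟩ | ⟨rfl, rfl⟩ |
        ⟨rfl, rfl⟩ | ⟨rfl, rfl⟩ | ⟨rfl, rfl⟩ | ⟨rfl, rfl⟩ | ⟨rfl, rfl⟩ | ⟨rfl, rfl⟩ | ⟨rfl, rfl⟩ |
        ⟨rfl, rfl⟩ | ⟨rfl, rfl⟩ | ⟨rfl, rfl⟩ | ⟨rfl, rfl⟩
      · exact uy
      · exact uz
      · exact a1u
      · exact a2u
      · exact a3u
      · exact vy.symm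
      · exact b1y
      · exact b2y
      · exact b3y
      · exact vz
      · exact a1v
      · exact a2v
      · exact a3v
      · exact b1z
      · exact b2z
      · exact b3z
    intro i j h
    rcases lt_trichotomy i j with hij | hij | hij
    · exact key i j hij h
    · exact absurd hij h.ne
    · exact (key j i hij h.symm).symm
  exact ⟨⟨⟨f, fun {i j} h => hhom i j h⟩, hinj⟩⟩

/-- weight of a closed walk -/
def WW (P Q : V × V) : ℕ :=
  if (G.Adj P.1 Q.1 ∧ G.Adj P.2 Q.1) ∧ (G.Adj P.1 Q.2 ∧ G.Adj P.2 Q.2) then 1 else 0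

theorem WW_symm (P Q : V × V) : WW G P Q = WW G Q P := by
  unfold WW
  congr 1
  rw [eq_iff_iff]
  constructor
  · rintro ⟨⟨a, b⟩, c, d⟩; exact ⟨⟨a.symm, c.symm⟩, b.symm, d.symm⟩
  · rintro ⟨⟨a, b⟩, c, d⟩; exact ⟨⟨a.symm, c.symm⟩, b.symm, d.symm⟩

theorem sum_WW (P : V × V) : ∑ Q, WW G P Q = (cn G P).card ^ 2 := by
  have : ∑ Q, WW G P Q = ((cn G P) ×ˢ (cn G P)).card := by
    unfold WW
    rw [← card_filter]
    congr 1
    ext Q
    simp only [cn, mem_filter, mem_univ, true_and, mem_product]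
  rw [this, card_product, sq]

theorem deg_cn (u : V) : (cn G (u, u)).card = G.degree u := by
  rw [← card_neighborFinset_eq_degree]
  congr 1
  ext w
  simp [cn]

/-- double counting of the paths of length two -/
theorem sum_cn : ∑ P, (cn G P).card = ∑ u, (cn G (u, u)).card ^ 2 := by
  have h1 : ∀ P : V × V, (cn G P).card = ∑ w, (if G.Adj P.1 w ∧ G.Adj P.2 w then 1 else 0) := by
    intro P
    rw [cn, card_filter]
  have h2 : ∀ w : V, (cn G (w, w)).card ^ 2 =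
      ∑ P : V × V, (if G.Adj P.1 w ∧ G.Adj P.2 w then 1 else 0) := by
    intro w
    rw [← card_filter, sq, ← card_product]
    congr 1
    ext P
    simp only [cn, mem_filter, mem_univ, true_and, mem_product]
    constructor
    · rintro ⟨⟨a, -⟩, b, -⟩; exact ⟨a.symm, b.symm⟩
    · rintro ⟨a, b⟩; exact ⟨⟨a.symm, a.symm⟩, b.symm, b.symm⟩
  rw [sum_congr rfl (fun P _ => h1 P), sum_congr rfl (fun w _ => h2 w), sum_comm]

theorem WW_le (hG : F0.Free G) (P Q : V × V) : WW G P Q ≤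
    ((if P.1 = P.2 then WW G P Q else 0) + (if Q.1 = Q.2 then WW G P Q else 0)) +
    ((if (cn G P).card ≤ 7 then WW G P Q else 0) + (if (cn G Q).card ≤ 7 then WW G P Q else 0)) := by
  by_cases h : (G.Adj P.1 Q.1 ∧ G.Adj P.2 Q.1) ∧ (G.Adj P.1 Q.2 ∧ G.Adj P.2 Q.2)
  · by_cases h1 : P.1 = P.2
    · rw [if_pos h1]; omega
    by_cases h2 : Q.1 = Q.2
    · rw [if_pos h2]; omega
    by_cases h3 : (cn G P).card ≤ 7
    · rw [if_pos h3]; omega
    by_cases h4 : (cn G Q).card ≤ 7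
    · rw [if_pos h4]; omega
    exfalso
    push Not at h3 h4
    exact embed G hG h1 h2 h.1.1 h.2.1 h.1.2 h.2.2 h3 h4
  · have : WW G P Q = 0 := by unfold WW; rw [if_neg h]
    rw [this]; exact Nat.zero_le _

theorem upper_nat (hG : F0.Free G) : 4 * G.edgeFinset.card ^ 2 ≤ 11 * Fintype.card V ^ 3 := by
  set n := Fintype.card V with hn
  set D := ∑ u, (cn G (u, u)).card ^ 2 with hD
  set T := ∑ P, (cn G P).card ^ 2 with hT
  -- the four sums
  have s1 : ∑ P, ∑ Q, (if P.1 = P.2 then WW G P Q else 0) = D := by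
    have : ∀ P : V × V, ∑ Q, (if P.1 = P.2 then WW G P Q else 0) =
        if P.1 = P.2 then (cn G P).card ^ 2 else 0 := by
      intro P
      by_cases h : P.1 = P.2
      · simp only [if_pos h]; exact sum_WW G P
      · simp only [if_neg h]; simp
    rw [sum_congr rfl (fun P _ => this P), hD, Fintype.sum_prod_type]
    apply sum_congr rfl
    intro u _
    simp
  have s2 : ∑ P, ∑ Q, (if Q.1 = Q.2 then WW G P Q else 0) = D := by
    rw [sum_comm, ← s1]
    apply sum_congr rfl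
    intro P _
    apply sum_congr rfl
    intro Q _
    rw [WW_symm]
  have s3 : ∑ P, ∑ Q, (if (cn G P).card ≤ 7 then WW G P Q else 0) ≤ 49 * n ^ 2 := by
    have : ∀ P : V × V, ∑ Q, (if (cn G P).card ≤ 7 then WW G P Q else 0) ≤ 49 := by
      intro P
      by_cases h : (cn G P).card ≤ 7
      · simp only [if_pos h]; rw [sum_WW G P]; nlinarith
      · simp only [if_neg h]; simp
    calc ∑ P, ∑ Q, (if (cn G P).card ≤ 7 then WW G P Q else 0) ≤ ∑ P : V × V, 49 :=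
          sum_le_sum (fun P _ => this P)
      _ = 49 * n ^ 2 := by
          rw [sum_const, card_univ, Fintype.card_prod, smul_eq_mul, ← hn]; ring
  have s4 : ∑ P, ∑ Q, (if (cn G Q).card ≤ 7 then WW G P Q else 0) ≤ 49 * n ^ 2 := by
    rw [sum_comm]
    refine le_trans (le_of_eq ?_) s3
    apply sum_congr rfl
    intro P _
    apply sum_congr rfl
    intro Q _
    rw [WW_symm]
  have hT1 : T ≤ 2 * D + 98 * n ^ 2 := by
    have h0 : T = ∑ P, ∑ Q, WW G P Q := by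
      rw [hT]; exact sum_congr rfl (fun P _ => (sum_WW G P).symm)
    have h1 : ∑ P, ∑ Q, WW G P Q ≤
        ∑ P, ∑ Q, (((if P.1 = P.2 then WW G P Q else 0) + (if Q.1 = Q.2 then WW G P Q else 0)) +
        ((if (cn G P).card ≤ 7 then WW G P Q else 0) +
          (if (cn G Q).card ≤ 7 then WW G P Q else 0))) :=
      sum_le_sum (fun P _ => sum_le_sum (fun Q _ => WW_le G hG P Q))
    simp only [sum_add_distrib] at h1
    rw [s1, s2] at h1
    omega
  have hCS : D ^ 2 ≤ n ^ 2 * T := by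
    rw [hD, ← sum_cn G]
    have := sq_sum_le_card_mul_sum_sq (s := (univ : Finset (V × V))) (f := fun P => (cn G P).card)
    rw [card_univ, Fintype.card_prod] at this
    rw [hn, sq (Fintype.card V)]
    exact this
  have hD11 : D ≤ 11 * n ^ 2 := by
    by_contra hc
    push Not at hc
    have h1 : D ^ 2 ≤ n ^ 2 * (2 * D + 98 * n ^ 2) := hCS.trans (Nat.mul_le_mul_left _ hT1)
    generalize n ^ 2 = M at *
    nlinarith
  have hdeg : (2 * G.edgeFinset.card) ^ 2 ≤ n * D := by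
    rw [← G.sum_degrees_eq_twice_card_edges, hD]
    have := sq_sum_le_card_mul_sum_sq (s := (univ : Finset V)) (f := fun v => G.degree v)
    rw [card_univ] at this
    simp only [deg_cn]
    exact this
  calc 4 * G.edgeFinset.card ^ 2 = (2 * G.edgeFinset.card) ^ 2 := by ring
    _ ≤ n * D := hdeg
    _ ≤ n * (11 * n ^ 2) := Nat.mul_le_mul_left _ hD11
    _ = 11 * n ^ 3 := by ring

end upper

end Pool.Agent.Helper585_EDC
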