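import Pool.Agent.Helper585_EDC.D

set_option linter.unusedVariables false
set_option linter.unusedSectionVars false

namespace Pool.Agent.Helper585_EDC

open SimpleGraph Finset

section lower

variable {p : ℕ} [Fact p.Prime]

/-- vertices: points, lines, and isolated vertices -/
abbrev PL (p r : ℕ) : Type := (ZMod p × ZMod p) ⊕ ((ZMod p × ZMod p) ⊕ Fin r)

/-- incidences -/
def incR (p r : ℕ) : PL p r → PL p r → Prop
  | Sum.inl P, Sum.inr (Sum.inl L) => P.2 = L.1 * P.1 + L.2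
  | Sum.inr (Sum.inl L), Sum.inl P => P.2 = L.1 * P.1 + L.2
  | _, _ => False

/-- the incidence graph -/
def incG (p r : ℕ) : SimpleGraph (PL p r) where
  Adj := incR p r
  symm := ⟨by
    rintro (a | a | a) (b | b | b) h <;> simp_all [incR]⟩
  loopless := ⟨by
    rintro (a | a | a) h <;> simp_all [incR]⟩

theorem two_two {P P' L L' : ZMod p × ZMod p} (h1 : P.2 = L.1 * P.1 + L.2)
    (h2 : P'.2 = L.1 * P'.1 + L.2) (h3 : P.2 = L'.1 * P.1 + L'.2) (h4 : P'.2 = L'.1 * P'.1 + L'.2) :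
    P = P' ∨ L = L' := by
  have : (L.1 - L'.1) * (P.1 - P'.1) = 0 := by linear_combination h3 - h1 + h2 - h4
  rcases mul_eq_zero.1 this with h | h
  · right
    have e : L.1 = L'.1 := sub_eq_zero.1 h
    refine Prod.ext e ?_
    rw [e] at h1
    linear_combination h3 - h1
  · left
    have e : P.1 = P'.1 := sub_eq_zero.1 h
    refine Prod.ext e ?_
    rw [h1, h2, e]

theorem no_c4 {r : ℕ} {A B C D : PL p r} (hAB : (incG p r).Adj A B) (hBC : (incG p r).Adj B C)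
    (hCD : (incG p r).Adj C D) (hDA : (incG p r).Adj D A) (hAC : A ≠ C) (hBD : B ≠ D) : False := by
  rcases A with A | A | A <;> rcases B with B | B | B <;> rcases C with C | C | C <;>
  rcases D with D | D | D <;> simp only [incG, incR] at hAB hBC hCD hDA
  · rcases two_two hAB hBC hDA hCD with h | h
    · exact hAC (by rw [h])
    · exact hBD (by rw [h])
  · rcases two_two hAB hDA hBC hCD with h | h
    · exact hBD (by rw [h])
    · exact hAC (by rw [h])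

theorem inc_free (r : ℕ) : F0.Free (incG p r) := by
  rintro ⟨φ⟩
  exact no_c4 (φ.toHom.map_adj (by decide : F0.Adj 0 1)) (φ.toHom.map_adj (by decide : F0.Adj 1 2))
    (φ.toHom.map_adj (by decide : F0.Adj 2 3)) (φ.toHom.map_adj (by decide : F0.Adj 3 0))
    (φ.injective.ne (by decide)) (φ.injective.ne (by decide))

open Classical in
theorem inc_edges (r : ℕ) : p ^ 3 ≤ (incG p r).edgeFinset.card := by
  let e : ZMod p × (ZMod p × ZMod p) → Sym2 (PL p r) := fun z =>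
    s(Sum.inl (z.1, z.2.1 * z.1 + z.2.2), Sum.inr (Sum.inl z.2))
  have he : Function.Injective e := by
    rintro ⟨x, a, b⟩ ⟨x', a', b'⟩ h
    simp only [e, Sym2.eq_iff] at h
    rcases h with ⟨h1, h2⟩ | ⟨h1, h2⟩
    · simp only [Sum.inl.injEq, Sum.inr.injEq, Prod.mk.injEq] at h1 h2 ⊢
      exact ⟨h1.1, h2⟩
    · simp at h1
  have h1 : (univ.image e) ⊆ (incG p r).edgeFinset := by
    intro s hs
    obtain ⟨z, -, rfl⟩ := mem_image.1 hs
    rw [mem_edgeFinset]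
    have : (incG p r).Adj (Sum.inl (z.1, z.2.1 * z.1 + z.2.2)) (Sum.inr (Sum.inl z.2)) := by
      simp [incG, incR]
    exact this
  have h2 := card_le_card h1
  rw [card_image_of_injective _ he, card_univ] at h2
  have h3 : Fintype.card (ZMod p × (ZMod p × ZMod p)) = p ^ 3 := by
    simp [ZMod.card]; ring
  rw [h3] at h2
  exact h2

theorem ex_lower (n : ℕ) (hn : 2 * p ^ 2 ≤ n) : p ^ 3 ≤ extremalNumber n F0 := by
  classical
  have h1 := card_edgeFinset_le_extremalNumber (inc_free (p := p) (n - 2 * p ^ 2))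
  have h2 : Fintype.card (PL p (n - 2 * p ^ 2)) = n := by
    simp [ZMod.card]
    rw [← sq]
    omega
  rw [h2] at h1
  refine le_trans ?_ h1
  convert inc_edges (p := p) (n - 2 * p ^ 2)

end lower

theorem ex_upper (n : ℕ) : (extremalNumber n F0 : ℝ) ≤ 2 * (n : ℝ) ^ (3 / 2 : ℝ) := by
  have hn0 : (0 : ℝ) ≤ (n : ℝ) := Nat.cast_nonneg n
  have hx : (0 : ℝ) ≤ (n : ℝ) ^ (3 / 2 : ℝ) := Real.rpow_nonneg hn0 _
  have hsq : ((n : ℝ) ^ (3 / 2 : ℝ)) ^ 2 = (n : ℝ) ^ 3 := by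
    rw [← Real.rpow_natCast, ← Real.rpow_mul hn0, ← Real.rpow_natCast]
    norm_num
  have h := (extremalNumber_le_iff_of_nonneg (V := Fin n) F0
    (m := 2 * (n : ℝ) ^ (3 / 2 : ℝ)) (by positivity)).2 ?_
  · simpa using h
  · intro G _ hG
    have h1 := upper_nat G hG
    rw [Fintype.card_fin] at h1
    have h2 : (4 : ℝ) * (G.edgeFinset.card : ℝ) ^ 2 ≤ 11 * (n : ℝ) ^ 3 := by exact_mod_cast h1
    have h3 : (G.edgeFinset.card : ℝ) ^ 2 ≤ (2 * (n : ℝ) ^ (3 / 2 : ℝ)) ^ 2 := by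
      rw [mul_pow, hsq]
      have : (0 : ℝ) ≤ (n : ℝ) ^ 3 := by positivity
      linarith
    exact le_of_sq_le_sq h3 (by positivity)

theorem turan_F0 : ∃ c₁ c₂ : ℝ, 0 < c₁ ∧ c₁ ≤ c₂ ∧ ∀ᶠ n : ℕ in Filter.atTop,
    c₁ * (n : ℝ) ^ (3 / 2 : ℝ) ≤ (extremalNumber n F0 : ℝ) ∧
    (extremalNumber n F0 : ℝ) ≤ c₂ * (n : ℝ) ^ (3 / 2 : ℝ) := by
  refine ⟨1 / 27, 2, by norm_num, by norm_num, ?_⟩
  filter_upwards [Filter.eventually_ge_atTop 8] with n hn
  refine ⟨?_, ex_upper n⟩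
  set m := Nat.sqrt (n / 8) with hm
  have hm0 : m ≠ 0 := by
    intro h
    have : n / 8 = 0 := Nat.sqrt_eq_zero.1 (hm ▸ h)
    omega
  obtain ⟨p, hp, hmp, hp2⟩ := Nat.exists_prime_lt_and_le_two_mul m hm0
  have : Fact p.Prime := ⟨hp⟩
  have h1 : m ^ 2 ≤ n / 8 := Nat.sqrt_le' _
  have h2 : n / 8 < (m + 1) ^ 2 := Nat.lt_succ_sqrt' _
  have h3 : 2 * p ^ 2 ≤ n := by
    have : p ^ 2 ≤ (2 * m) ^ 2 := Nat.pow_le_pow_left hp2 2
    have h4 : 8 * (n / 8) ≤ n := Nat.mul_div_le n 8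
    nlinarith
  have h4 : n ≤ 9 * p ^ 2 := by
    have : (m + 1) ^ 2 ≤ p ^ 2 := Nat.pow_le_pow_left hmp 2
    have h5 : n < 8 * (n / 8) + 8 := by omega
    nlinarith
  have h5 := ex_lower (p := p) n h3
  have hn0 : (0 : ℝ) ≤ (n : ℝ) := Nat.cast_nonneg n
  have h6 : (n : ℝ) ^ (3 / 2 : ℝ) ≤ 27 * (p : ℝ) ^ 3 := by
    have a1 : (n : ℝ) ≤ (3 * (p : ℝ)) ^ 2 := by
      have : (n : ℝ) ≤ 9 * (p : ℝ) ^ 2 := by exact_mod_cast h4
      nlinarith
    have a2 : (n : ℝ) ^ (3 / 2 : ℝ) ≤ ((3 * (p : ℝ)) ^ 2) ^ (3 / 2 : ℝ) :=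
      Real.rpow_le_rpow hn0 a1 (by norm_num)
    have a3 : ((3 * (p : ℝ)) ^ 2) ^ (3 / 2 : ℝ) = (3 * (p : ℝ)) ^ 3 := by
      rw [← Real.rpow_natCast, ← Real.rpow_mul (by positivity), ← Real.rpow_natCast]
      norm_num
    rw [a3] at a2
    nlinarith
  have h7 : (p : ℝ) ^ 3 ≤ (extremalNumber n F0 : ℝ) := by exact_mod_cast h5
  linarith

end Pool.Agent.Helper585_EDC
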